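import Pool.Agent.H.MP_ed39a4_al.F

set_option autoImplicit false

namespace Pool.Agent.Results.MP_ed39a4_al.Q2Yes

/-- The Cayley graph of `G` with respect to the finite set `S`. -/
def cayley {G : Type} [Group G] (S : Finset G) : SimpleGraph G :=
  SimpleGraph.fromRel (fun x y => x⁻¹ * y ∈ S)

open Pool.Agent.H.MP_ed39a4_al in
theorem result : ∃ (G : Type) (_ : Group G), Group.FG G ∧ Infinite G ∧
    ∀ S : Finset G, Subgroup.closure (S : Set G) = ⊤ →
      (∀ K : Finset G, ∃! C : (cayley S).ComponentCompl (K : Set G), C.supp.Infinite) ∧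
      ∀ D : ℕ, ∃ g : G,
        (∀ v, (cayley S).Adj g v → (cayley S).dist 1 v ≤ (cayley S).dist 1 g) ∧
        {v | ∃ p : (cayley S).Walk g v, ∀ u ∈ p.support,
          (cayley S).dist 1 g ≤ (cayley S).dist 1 u + D}.Finite := by
  obtain ⟨R, _, h1, h2⟩ := exists_group
  have := infinite_quot R h1
  refine ⟨F ⧸ R, inferInstance, inferInstance, this, fun S hS => ?_⟩
  have h3 := fun D => (h2 S hS D).choose_spec.dead S hS
  exact ⟨one_ended S hS (fun D => ⟨_, (h3 D).choose_spec.2⟩), h3⟩

end Pool.Agent.Results.MP_ed39a4_al.Q2Yes
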